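import Pool.Agent.Helper73.SY.Half
import Pool.Agent.Helper73.LR.Final
import Pool.Agent.Helper36.SY.Pro
import Pool.Agent.Helper36.SY.Top
import Pool.Agent.Helper56.SY.Low
import Pool.Agent.Helper56.SY.Sta
import Pool.Agent.Helper60.SY.Rln3
import Pool.Agent.Helper60.SY.Stb
import Pool.Agent.Helper61.SY.Cmb
import Pool.Agent.Helper61.SY.Rid
import Pool.Agent.Helper79.SY.Dat
import Pool.Agent.Helper79.SY.Reg
import Pool.Agent.Helper94.SY.Cen
import Pool.Agent.Helper94.SY.Img
import Pool.Agent.Helper94.SY.Ren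

/-!
# Bodies with symmetries, all densities: final assembly (project MP_a2630c_SY)
-/

open MeasureTheory Set Metric Real
open scoped RealInnerProductSpace ENNReal
open Pool.Agent.Helper16.Buoy (E cap IsEllipsoid Homothetic buoyancyBody)
open Pool.Agent.Helper73.HV (supp)
open Pool.Agent.Helper73.LR (CB vol GG Sol aff)

namespace Pool.Agent.Helper73.SY

theorem loc_half : S_half :=
  half Pool.Agent.Helper94.SY.img Pool.Agent.Helper79.SY.dat Pool.Agent.Helper79.SY.reg
    Pool.Agent.Helper60.SY.stab Pool.Agent.Helper56.SY.start Pool.Agent.Helper56.SY.lower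
    (Pool.Agent.Helper36.SY.topo Pool.Agent.Helper56.SY.lower)

theorem loc_refl : S_refl :=
  refl Pool.Agent.Helper94.SY.img Pool.Agent.Helper79.SY.dat loc_half

theorem loc_plane : S_plane := plane loc_refl

theorem loc_combine : S_combine :=
  Pool.Agent.Helper61.SY.combine Pool.Agent.Helper94.SY.img loc_refl loc_plane

theorem aff_one {n : ℕ} (c x : E n) : aff (ContinuousLinearEquiv.refl ℝ (E n)) c x = x + c := rfl

theorem aff_zero {n : ℕ} (T : E n ≃L[ℝ] E n) (x : E n) : aff T 0 x = T x := by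
  unfold aff; rw [add_zero]

/-- Bodies of revolution (in the centred form). -/
theorem ell_rev {m : ℕ} (hm : 1 ≤ m) {K : Set (E (m + 1))} {δ lam : ℝ} (hK : CS K δ lam)
    (hR : RevSym K (bb (m + 1) 0)) : IsEllipsoid K := by
  obtain ⟨X, t, hD⟩ := Pool.Agent.Helper79.SY.dat (by omega) hK
  have hreg := Pool.Agent.Helper79.SY.reg (by omega) hK
  have hon : ON (bb (m + 1) 0) (bb (m + 1) (⟨1, by omega⟩ : Fin (m + 1))) := by
    refine ⟨?_, ?_, ?_⟩
    · simp [bb]
    · simp [bb]
    · have hne : (0 : Fin (m + 1)) ≠ ⟨1, by omega⟩ := by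
        intro h
        have := congrArg Fin.val h
        simp at this
      simp [bb, EuclideanSpace.inner_single_left, hne]
  have hprof := Pool.Agent.Helper36.SY.prof (by omega) hD hreg hon hR
  have hlin := Pool.Agent.Helper60.SY.rlin (by omega) hD hR hprof
    (fun hΩ κ => Pool.Agent.Helper61.SY.rid (by omega) hD hR hprof hΩ κ)
  exact Pool.Agent.Helper94.SY.rend hK.cb hprof hlin

theorem flip_eq {n : ℕ} {i j : Fin n} (hij : i ≠ j) (x : E n) :
    iot (bb n i) (bb n j) x =
      WithLp.toLp 2 (fun k => if k = i ∨ k = j then - x k else x k) := by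
  ext k
  unfold iot bb
  simp only [EuclideanSpace.inner_single_left, map_one, one_mul, PiLp.sub_apply, PiLp.smul_apply,
    smul_eq_mul]
  rw [EuclideanSpace.single_apply, EuclideanSpace.single_apply]
  by_cases h1 : k = i
  · subst h1
    rw [if_pos rfl, if_neg hij, if_pos (Or.inl rfl)]
    ring
  · by_cases h2 : k = j
    · subst h2
      rw [if_neg h1, if_pos rfl, if_pos (Or.inr rfl)]
      ring
    · rw [if_neg h1, if_neg h2, if_neg (by tauto)]
      ring

theorem on_bb {n : ℕ} {i j : Fin n} (hij : i ≠ j) : ON (bb n i) (bb n j) := by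
  refine ⟨?_, ?_, ?_⟩
  · simp [bb]
  · simp [bb]
  · simp [bb, EuclideanSpace.inner_single_left, hij]

theorem iot_image_of_sub {n : ℕ} {p q : E n} (h : ON p q) {K : Set (E n)}
    (hK : ∀ x ∈ K, iot p q x ∈ K) : iot p q '' K = K := by
  apply Subset.antisymm
  · rintro _ ⟨x, hx, rfl⟩
    exact hK x hx
  · intro x hx
    exact ⟨iot p q x, hK x hx, iot_iot h x⟩

theorem iot_add {n : ℕ} (p q x y : E n) : iot p q (x + y) = iot p q x + iot p q y := by
  unfold iot; rw [inner_add_right, inner_add_right]; module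

theorem iot_translate {n : ℕ} {p q : E n} {K : Set (E n)} (hK : iot p q '' K = K) {c : E n}
    (hc : iot p q c = c) : iot p q '' ((fun x => x + c) '' K) = (fun x => x + c) '' K := by
  rw [image_image]
  have h1 : (fun x => iot p q (x + c)) = fun x => iot p q x + c := by
    funext x; rw [iot_add, hc]
  rw [h1, ← image_image (fun x => x + c) (iot p q) K, hK]

/-- The theorem. -/
theorem symmetric_bodies {n : ℕ} (hn : 3 ≤ n) {K : Set (E n)} {d : ℝ} (h1 : Convex ℝ K)
    (h2 : IsCompact K) (h3 : (interior K).Nonempty) (hd0 : 0 < d)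
    (hd1 : ENNReal.ofReal d < volume K) (hh : Homothetic K (buoyancyBody K d))
    (T : E n ≃ᵃ[ℝ] E n)
    (hT : ∀ i j : Fin n, 0 < (i : ℕ) → 0 < (j : ℕ) → i ≠ j → ∀ x ∈ T '' K,
      (WithLp.toLp 2 (fun k => if k = i ∨ k = j then - x k else x k) : E n) ∈ T '' K) :
    IsEllipsoid K := by
  obtain ⟨m, rfl⟩ : ∃ m, n = m + 1 := ⟨n - 1, by omega⟩
  have hK : CB K := ⟨h1, h2, h3⟩
  have hv := Pool.Agent.Helper96.LR.vol_pos hK
  have hd1' : d < vol K := by
    rw [← Pool.Agent.Helper73.LR.ofReal_vol hK] at hd1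
    exact (ENNReal.ofReal_lt_ofReal_iff hv).1 hd1
  have hs := Pool.Agent.Helper73.LR.sol_of_density Pool.Agent.Helper73.LR.loc_sol_of_hom
    (by omega) hK hd0 hd1' hh
  -- the image by `T`
  let L : E (m + 1) ≃L[ℝ] E (m + 1) := T.linear.toContinuousLinearEquiv
  have hTx : ∀ x, T x = aff L (T 0) x := by
    intro x
    have := T.toAffineMap.map_vadd (0 : E (m + 1)) x
    simpa [aff, L] using this
  have hTK : T '' K = aff L (T 0) '' K := by
    apply image_congr
    intro x _
    exact hTx x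
  obtain ⟨hK1, hs1⟩ := Pool.Agent.Helper96.LR.sol_aff hK hs L (T 0)
  rw [← hTK] at hK1 hs1
  have hv1 := Pool.Agent.Helper96.LR.vol_pos hK1
  set θ := d / vol K with hθ
  have hθ0 : 0 < θ := div_pos hd0 hv
  have hθ1 : θ < 1 := (div_lt_one hv).2 hd1'
  obtain ⟨c, lam, hCS, hfix⟩ := Pool.Agent.Helper94.SY.center (by omega) hK1
    (mul_pos hθ0 hv1) (by nlinarith : θ * vol (T '' K) < vol (T '' K)) hs1
  have hsym : ∀ i j : Fin m, i ≠ j →
      iot (bb (m + 1) i.succ) (bb (m + 1) j.succ) '' ((fun x => x + c) '' (T '' K)) =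
        (fun x => x + c) '' (T '' K) := by
    intro i j hij
    have hij' : i.succ ≠ j.succ := fun h => hij (Fin.succ_inj.1 h)
    have hON := on_bb (n := m + 1) hij'
    have h4 : iot (bb (m + 1) i.succ) (bb (m + 1) j.succ) '' (T '' K) = T '' K := by
      apply iot_image_of_sub hON
      intro x hx
      rw [flip_eq hij']
      exact hT i.succ j.succ (by simp) (by simp) hij' x hx
    exact iot_translate h4 (hfix _ _ hON h4)
  obtain ⟨T2, hR⟩ := loc_combine (by omega) hCS hsym
  have hCS2 := Pool.Agent.Helper94.SY.img hCS T2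
  have hE := ell_rev (by omega) hCS2 hR
  have e1 : T2 '' ((fun x => x + c) '' (T '' K)) = aff T2 0 '' ((fun x => x + c) '' (T '' K)) := by
    apply image_congr
    intro x _
    exact (aff_zero T2 x).symm
  rw [e1] at hE
  have hE2 := Pool.Agent.Helper96.LR.ell_aff T2 0 hE
  have e2 : (fun x => x + c) '' (T '' K) =
    aff (ContinuousLinearEquiv.refl ℝ (E (m + 1))) c '' (T '' K) := rfl
  rw [e2] at hE2
  have hE3 := Pool.Agent.Helper96.LR.ell_aff _ c hE2
  rw [hTK] at hE3
  exact Pool.Agent.Helper96.LR.ell_aff L (T 0) hE3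

end Pool.Agent.Helper73.SY
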