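import Pool.Agent.Helper73.SY.Stmts
import Pool.Agent.Helper96.LR.Base
import Pool.Agent.Helper65.LR.Rh

/-!
# Basic facts on the maps `rr`, `iot`, `gg`, `sg` (project MP_a2630c_SY)
-/

open MeasureTheory Set Metric Real Filter Topology
open scoped RealInnerProductSpace ENNReal
open Pool.Agent.Helper16.Buoy (E cap IsEllipsoid Homothetic buoyancyBody)
open Pool.Agent.Helper73.HV (supp)
open Pool.Agent.Helper73.LR (CB vol GG Sol aff)

namespace Pool.Agent.Helper73.SY

variable {n : ℕ} {p q : E n}

theorem ON.symm (h : ON p q) : ON q p := ⟨h.q1, h.p1, by rw [real_inner_comm]; exact h.pq⟩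

theorem ON.pp (h : ON p q) : inner ℝ p p = (1 : ℝ) := by
  rw [real_inner_self_eq_norm_sq, h.p1]; norm_num

theorem ON.qq (h : ON p q) : inner ℝ q q = (1 : ℝ) := by
  rw [real_inner_self_eq_norm_sq, h.q1]; norm_num

theorem ON.qp (h : ON p q) : inner ℝ q p = (0 : ℝ) := by
  rw [real_inner_comm]; exact h.pq

theorem ON.p0 (h : ON p q) : p ≠ 0 := by
  intro h0
  have := h.p1
  rw [h0, norm_zero] at this
  exact zero_ne_one this

theorem inner_p_rr (h : ON p q) (x : E n) : inner ℝ p (rr p q x) = (inner ℝ q x : ℝ) := by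
  unfold rr
  rw [inner_sub_right, inner_smul_right, inner_sub_right, h.pp, h.pq, inner_sub_left]
  ring

theorem inner_q_rr (h : ON p q) (x : E n) : inner ℝ q (rr p q x) = (inner ℝ p x : ℝ) := by
  unfold rr
  rw [inner_sub_right, inner_smul_right, inner_sub_right, h.qq, h.qp, inner_sub_left]
  ring

theorem inner_p_iot (h : ON p q) (x : E n) : inner ℝ p (iot p q x) = -(inner ℝ p x : ℝ) := by
  unfold iot
  rw [inner_sub_right, inner_sub_right, inner_smul_right, inner_smul_right, h.pp, h.pq]
  ring

theorem inner_q_iot (h : ON p q) (x : E n) : inner ℝ q (iot p q x) = -(inner ℝ q x : ℝ) := by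
  unfold iot
  rw [inner_sub_right, inner_sub_right, inner_smul_right, inner_smul_right, h.qq, h.qp]
  ring

/-- `rr` is symmetric. -/
theorem inner_rr (u x : E n) : inner ℝ u (rr p q x) = (inner ℝ (rr p q u) x : ℝ) := by
  unfold rr
  generalize p - q = w
  rw [inner_sub_right, inner_smul_right, inner_sub_left, inner_smul_left, conj_trivial,
    real_inner_comm u w]
  ring

/-- `iot` is symmetric. -/
theorem inner_iot (u x : E n) : inner ℝ u (iot p q x) = (inner ℝ (iot p q u) x : ℝ) := by
  unfold iot
  rw [inner_sub_right, inner_sub_right, inner_smul_right, inner_smul_right, inner_sub_left,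
    inner_sub_left, inner_smul_left, inner_smul_left, conj_trivial, conj_trivial,
    real_inner_comm u p, real_inner_comm u q]
  ring

/-- `gg` is symmetric. -/
theorem inner_gg (ε : ℝ) (u x : E n) : inner ℝ u (gg ε q x) = (inner ℝ (gg ε q u) x : ℝ) := by
  unfold gg
  rw [inner_add_right, inner_smul_right, inner_add_left, inner_smul_left, conj_trivial,
    real_inner_comm u q]
  ring

theorem rr_rr (h : ON p q) (x : E n) : rr p q (rr p q x) = x := by
  have h1 : (inner ℝ (p - q) (rr p q x) : ℝ) = -inner ℝ (p - q) x := by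
    rw [inner_sub_left, inner_p_rr h, inner_q_rr h, inner_sub_left]; ring
  conv_lhs => rw [rr, h1]
  unfold rr
  rw [neg_smul]
  abel

theorem iot_iot (h : ON p q) (x : E n) : iot p q (iot p q x) = x := by
  conv_lhs => rw [iot, inner_p_iot h, inner_q_iot h]
  unfold iot
  module

theorem norm_rr (h : ON p q) (x : E n) : ‖rr p q x‖ = ‖x‖ := by
  have h1 : ‖rr p q x‖ ^ 2 = ‖x‖ ^ 2 := by
    rw [← real_inner_self_eq_norm_sq, ← real_inner_self_eq_norm_sq, inner_rr, rr_rr h]
  exact (sq_eq_sq₀ (norm_nonneg _) (norm_nonneg _)).1 h1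

theorem norm_iot (h : ON p q) (x : E n) : ‖iot p q x‖ = ‖x‖ := by
  have h1 : ‖iot p q x‖ ^ 2 = ‖x‖ ^ 2 := by
    rw [← real_inner_self_eq_norm_sq, ← real_inner_self_eq_norm_sq, inner_iot, iot_iot h]
  exact (sq_eq_sq₀ (norm_nonneg _) (norm_nonneg _)).1 h1

/-- `rr` as a linear isometry equivalence. -/
noncomputable def rrL (h : ON p q) : E n ≃ₗᵢ[ℝ] E n where
  toFun := rr p q
  map_add' x y := by
    unfold rr; rw [inner_add_right]; module
  map_smul' c x := by
    simp only [rr, inner_smul_right, RingHom.id_apply]; module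
  invFun := rr p q
  left_inv := rr_rr h
  right_inv := rr_rr h
  norm_map' := norm_rr h

/-- `iot` as a linear isometry equivalence. -/
noncomputable def iotL (h : ON p q) : E n ≃ₗᵢ[ℝ] E n where
  toFun := iot p q
  map_add' x y := by
    unfold iot; rw [inner_add_right, inner_add_right]; module
  map_smul' c x := by
    simp only [iot, inner_smul_right, RingHom.id_apply]; module
  invFun := iot p q
  left_inv := iot_iot h
  right_inv := iot_iot h
  norm_map' := norm_iot h

@[simp] theorem rrL_apply (h : ON p q) (x : E n) : rrL h x = rr p q x := rfl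

@[simp] theorem iotL_apply (h : ON p q) (x : E n) : iotL h x = iot p q x := rfl

theorem rr_cont : Continuous (rr p q : E n → E n) := by
  unfold rr; fun_prop

theorem iot_cont : Continuous (iot p q : E n → E n) := by
  unfold iot; fun_prop

theorem gg_cont (ε : ℝ) : Continuous (gg ε q : E n → E n) := by
  unfold gg; fun_prop

theorem inner_q_gg (hq : ‖q‖ = 1) (ε : ℝ) (x : E n) :
    inner ℝ q (gg ε q x) = ε * (inner ℝ q x : ℝ) := by
  unfold gg
  rw [inner_add_right, inner_smul_right, real_inner_self_eq_norm_sq, hq]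
  ring

theorem inner_p_gg (h : inner ℝ p q = (0 : ℝ)) (ε : ℝ) (x : E n) :
    inner ℝ p (gg ε q x) = (inner ℝ p x : ℝ) := by
  unfold gg
  rw [inner_add_right, inner_smul_right, h]
  ring

theorem gg_gg (hq : ‖q‖ = 1) (a b : ℝ) (x : E n) : gg a q (gg b q x) = gg (a * b) q x := by
  conv_lhs => rw [gg, inner_q_gg hq]
  unfold gg
  module

theorem gg_one (x : E n) : gg 1 q x = x := by
  unfold gg; simp

/-- `gg` as a continuous linear equivalence. -/
noncomputable def ggL (hq : ‖q‖ = 1) {ε : ℝ} (hε : ε ≠ 0) : E n ≃L[ℝ] E n :=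
  LinearEquiv.toContinuousLinearEquiv
    { toFun := gg ε q
      map_add' := fun x y => by unfold gg; rw [inner_add_right]; module
      map_smul' := fun c x => by simp only [gg, inner_smul_right, RingHom.id_apply]; module
      invFun := gg ε⁻¹ q
      left_inv := fun x => by rw [gg_gg hq, inv_mul_cancel₀ hε, gg_one]
      right_inv := fun x => by rw [gg_gg hq, mul_inv_cancel₀ hε, gg_one] }

@[simp] theorem ggL_apply (hq : ‖q‖ = 1) {ε : ℝ} (hε : ε ≠ 0) (x : E n) :
    ggL hq hε x = gg ε q x := rfl

theorem iot_gg (h : ON p q) (ε : ℝ) (x : E n) : iot p q (gg ε q x) = gg ε q (iot p q x) := by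
  conv_lhs => rw [iot, inner_q_gg h.q1, inner_p_gg h.pq]
  conv_rhs => rw [gg, inner_q_iot h]
  unfold gg iot
  module

theorem iot_rr (h : ON p q) (x : E n) : iot p q (rr p q x) = rr p q (iot p q x) := by
  conv_lhs => rw [iot, inner_p_rr h, inner_q_rr h]
  conv_rhs => rw [rr, inner_sub_left, inner_p_iot h, inner_q_iot h]
  unfold rr iot
  rw [inner_sub_left]
  module

theorem rr_p (h : ON p q) : rr p q p = q := by
  unfold rr; rw [inner_sub_left, h.pp, h.qp, sub_zero, one_smul]; abel

theorem rr_q (h : ON p q) : rr p q q = p := by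
  unfold rr; rw [inner_sub_left, h.pq, h.qq]; module

theorem gg_p (h : ON p q) (ε : ℝ) : gg ε q p = p := by
  unfold gg; rw [h.qp]; simp

theorem gg_q (h : ON p q) (ε : ℝ) : gg ε q q = ε • q := by
  unfold gg; rw [h.qq]; module

theorem iot_symm (x : E n) : iot q p x = iot p q x := by
  unfold iot; abel

theorem rr_symm (x : E n) : rr q p x = rr p q x := by
  have h1 : q - p = -(p - q) := by abel
  unfold rr
  rw [h1, inner_neg_left]
  module

theorem image_iot_mem (h : ON p q) {K : Set (E n)} (hK : iot p q '' K = K) {x : E n} :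
    iot p q x ∈ K ↔ x ∈ K := by
  constructor
  · intro hx
    have : iot p q (iot p q x) ∈ iot p q '' K := ⟨_, hx, rfl⟩
    rwa [iot_iot h, hK] at this
  · intro hx
    rw [← hK]
    exact ⟨x, hx, rfl⟩

/-- The support function of a symmetric linear image. -/
theorem supp_image {K : Set (E n)} {T S : E n → E n} (h : ∀ u x, inner ℝ u (T x) = (inner ℝ (S u) x : ℝ))
    (u : E n) : supp (T '' K) u = supp K (S u) := by
  unfold supp
  rw [image_image]
  congr 1
  apply image_congr
  intro x _
  exact h u x

theorem supp_rr {K : Set (E n)} (u : E n) : supp (rr p q '' K) u = supp K (rr p q u) :=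
  supp_image inner_rr u

theorem supp_iot {K : Set (E n)} (u : E n) : supp (iot p q '' K) u = supp K (iot p q u) :=
  supp_image inner_iot u

theorem supp_gg {K : Set (E n)} (ε : ℝ) (u : E n) : supp (gg ε q '' K) u = supp K (gg ε q u) :=
  supp_image (inner_gg ε) u

theorem supp_even {K : Set (E n)} (hK : iot p q '' K = K) (u : E n) :
    supp K (iot p q u) = supp K u := by
  rw [← supp_iot, hK]

/-- The support function is continuous. -/
theorem supp_cont {K : Set (E n)} (hK : IsCompact K) (hne : K.Nonempty) : Continuous (supp K) := by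
  obtain ⟨R, hR⟩ := hK.isBounded.exists_norm_le
  have hlip : ∀ u v, supp K u - supp K v ≤ |R| * ‖u - v‖ := by
    intro u v
    obtain ⟨y, hy, hyu⟩ := (Pool.Agent.Helper65.LR.supp_greatest hK hne u).1
    have h1 : inner ℝ u y = supp K u := hyu
    have h2 := Pool.Agent.Helper65.LR.le_supp hK hy v
    have h3 : (inner ℝ u y : ℝ) - inner ℝ v y ≤ |R| * ‖u - v‖ := by
      rw [← inner_sub_left]
      calc (inner ℝ (u - v) y : ℝ) ≤ ‖u - v‖ * ‖y‖ := real_inner_le_norm _ _
        _ ≤ ‖u - v‖ * |R| :=
          mul_le_mul_of_nonneg_left ((hR y hy).trans (le_abs_self R)) (norm_nonneg _)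
        _ = |R| * ‖u - v‖ := mul_comm _ _
    linarith
  refine (LipschitzWith.of_dist_le_mul (K := ⟨|R|, abs_nonneg R⟩) (fun u v => ?_)).continuous
  rw [Real.dist_eq, dist_eq_norm]
  change |supp K u - supp K v| ≤ |R| * ‖u - v‖
  rw [abs_le]
  constructor
  · have := hlip v u
    rw [norm_sub_rev] at this
    linarith
  · exact hlip u v

/-- Two convex bodies with the same support function coincide. -/
theorem eq_of_supp {K L : Set (E n)} (hK : CB K) (hL : CB L) (h : ∀ u, supp K u = supp L u) :
    K = L := by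
  have neK : K.Nonempty := hK.int.mono interior_subset
  have neL : L.Nonempty := hL.int.mono interior_subset
  apply Subset.antisymm
  · intro x hx
    refine Pool.Agent.Helper65.LR.mem_of_supp hL.conv hL.comp (fun u => ?_) neL
    rw [← h u]
    exact Pool.Agent.Helper65.LR.le_supp hK.comp hx u
  · intro x hx
    refine Pool.Agent.Helper65.LR.mem_of_supp hK.conv hK.comp (fun u => ?_) neK
    rw [h u]
    exact Pool.Agent.Helper65.LR.le_supp hL.comp hx u

end Pool.Agent.Helper73.SY
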