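import Pool.Agent.Helper73.LR.Defs

/-!
# Bodies with symmetries, all densities: definitions (project MP_a2630c_SY)

Blueprint: `MP_a2630c_SY_blueprint.md` in the team store.
-/

open MeasureTheory Set Metric Real Filter Topology
open scoped RealInnerProductSpace ENNReal
open Pool.Agent.Helper16.Buoy (E cap IsEllipsoid Homothetic buoyancyBody)
open Pool.Agent.Helper73.HV (supp)
open Pool.Agent.Helper73.LR (CB vol GG Sol aff)

namespace Pool.Agent.Helper73.SY

/-- A centred solution: the minimum of `GG K u τ + δ τ` over `τ`, attained at the level of the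
cap of volume `δ`, is `lam` times the support function. -/
structure CS {n : ℕ} (K : Set (E n)) (δ lam : ℝ) : Prop where
  cb : CB K
  dpos : 0 < δ
  dlt : δ < vol K
  lpos : 0 < lam
  llt : lam < δ
  eq : ∀ u : E n, u ≠ 0 → ∃ τ : ℝ, volume (cap K u τ) = ENNReal.ofReal δ ∧
    GG K u τ + δ * τ = lam * supp K u

/-- A centred solution with its support point map `X` and level map `t`. -/
structure Dat {n : ℕ} (K : Set (E n)) (δ lam : ℝ) (X : E n → E n) (t : E n → ℝ) : Prop where
  cs : CS K δ lam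
  Xc : ContinuousOn X {0}ᶜ
  tc : ContinuousOn t {0}ᶜ
  Xmem : ∀ u, u ≠ 0 → X u ∈ K
  Xsup : ∀ u, u ≠ 0 → inner ℝ u (X u) = supp K u
  Xuni : ∀ u, u ≠ 0 → ∀ y ∈ K, inner ℝ u y = supp K u → y = X u
  nor : ∀ u v x, u ≠ 0 → v ≠ 0 → x ∈ K → inner ℝ u x = supp K u → inner ℝ v x = supp K v →
    ∃ s : ℝ, 0 < s ∧ v = s • u
  tvol : ∀ u, u ≠ 0 → volume (cap K u (t u)) = ENNReal.ofReal δ
  tlo : ∀ u, u ≠ 0 → -supp K (-u) < t u
  tup : ∀ u, u ≠ 0 → t u < supp K u
  teq : ∀ u, u ≠ 0 → GG K u (t u) + δ * t u = lam * supp K u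
  tmin : ∀ u, u ≠ 0 → ∀ τ, lam * supp K u ≤ GG K u τ + δ * τ
  mom : ∀ u, u ≠ 0 → ∫ x in cap K u (t u), x = lam • X u

/-- Two orthonormal vectors. -/
structure ON {n : ℕ} (p q : E n) : Prop where
  p1 : ‖p‖ = 1
  q1 : ‖q‖ = 1
  pq : inner ℝ p q = (0 : ℝ)

/-- The map which is `-1` on the span of `p, q` and `1` on its orthogonal complement. -/
noncomputable def iot {n : ℕ} (p q x : E n) : E n :=
  x - (2 * inner ℝ p x) • p - (2 * inner ℝ q x) • q

/-- The reflection which exchanges `p` and `q`. -/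
noncomputable def rr {n : ℕ} (p q x : E n) : E n := x - (inner ℝ (p - q) x) • (p - q)

/-- The map `q ↦ ε q`, the identity on the orthogonal complement of `q`. -/
noncomputable def gg {n : ℕ} (ε : ℝ) (q x : E n) : E n := x + ((ε - 1) * inner ℝ q x) • q

/-- The reflection in the hyperplane orthogonal to the unit vector `v`. -/
noncomputable def sg {n : ℕ} (v x : E n) : E n := x - (2 * inner ℝ v x) • v

/-- The open sector. -/
def Sec {n : ℕ} (p q v : E n) : Prop := |(inner ℝ q v : ℝ)| < inner ℝ p v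

/-- The closed sector. -/
def CSec {n : ℕ} (p q v : E n) : Prop := |(inner ℝ q v : ℝ)| ≤ inner ℝ p v

/-- The product of the two linear forms that vanish on the walls of the sector. -/
noncomputable def ww {n : ℕ} (p q v : E n) : ℝ := (inner ℝ p v) ^ 2 - (inner ℝ q v) ^ 2

/-- The difference of `k` and its reflection, after the map `gg ε q`. -/
noncomputable def DD {n : ℕ} (k : E n → ℝ) (p q : E n) (ε : ℝ) (v : E n) : ℝ :=
  k (gg ε q v) - k (gg ε q (rr p q v))

/-- `v` is orthogonal to `p` and `q`. -/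
def Cor {n : ℕ} (p q v : E n) : Prop := inner ℝ p v = (0 : ℝ) ∧ inner ℝ q v = (0 : ℝ)

/-- In the part of the sector that is separated from its image by the hyperplane of level `t u`,
`K` is contained in its reflection. -/
def PP {n : ℕ} (K : Set (E n)) (t : E n → ℝ) (p q u : E n) : Prop :=
  ∀ x ∈ K, Sec p q x → inner ℝ u (iot p q x) < t u → t u < inner ℝ u x → x ∈ rr p q '' K

/-- The same on the hyperplane itself, used for `u` orthogonal to `p` and `q`. -/
def PC {n : ℕ} (K : Set (E n)) (t : E n → ℝ) (p q u : E n) : Prop :=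
  ∀ x ∈ K, Sec p q x → inner ℝ u x = t u → x ∈ rr p q '' K

/-- All reflections in hyperplanes containing the direction `e` are symmetries. -/
def RevSym {n : ℕ} (K : Set (E n)) (e : E n) : Prop :=
  ∀ v : E n, ‖v‖ = 1 → inner ℝ e v = (0 : ℝ) → sg v '' K = K

/-- Axial coordinate of the boundary point with normal `κ e + f`. -/
noncomputable def zz {n : ℕ} (X : E n → E n) (e f : E n) (κ : ℝ) : ℝ := inner ℝ e (X (κ • e + f))

/-- Radial coordinate of the boundary point with normal `κ e + f`. -/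
noncomputable def ss {n : ℕ} (X : E n → E n) (e f : E n) (κ : ℝ) : ℝ := inner ℝ f (X (κ • e + f))

/-- The profile of a body of revolution. -/
structure Prof {n : ℕ} (K : Set (E n)) (X : E n → E n) (e f : E n) : Prop where
  ef : ON e f
  spt : ∀ κ, X (κ • e + f) = zz X e f κ • e + ss X e f κ • f
  spos : ∀ κ, 0 < ss X e f κ
  zmono : StrictMono (zz X e f)
  zC1 : ContDiff ℝ 1 (zz X e f)
  sC1 : ContDiff ℝ 1 (ss X e f)
  zd : ∀ κ, 0 < deriv (zz X e f) κ
  sd : ∀ κ, deriv (ss X e f) κ = -κ * deriv (zz X e f) κ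
  zlo : ∀ κ, -supp K (-e) < zz X e f κ
  zup : ∀ κ, zz X e f κ < supp K e
  zsurj : ∀ y, -supp K (-e) < y → y < supp K e → ∃ κ, zz X e f κ = y
  mem : ∀ x : E n, x ∈ K ↔ (∃ κ, inner ℝ e x = zz X e f κ ∧ ‖x - (inner ℝ e x : ℝ) • e‖ ≤ ss X e f κ)
    ∨ x = supp K e • e ∨ x = (-supp K (-e)) • e

/-- The basis vectors. -/
noncomputable def bb (n : ℕ) (i : Fin n) : E n := EuclideanSpace.single i 1

end Pool.Agent.Helper73.SY
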