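import Pool.Agent.Helper73.SY.Base

/-!
# Assembly of the sliding method: modules HLF, REF, PLN (project MP_a2630c_SY)
-/

open MeasureTheory Set Metric Real Filter Topology
open scoped RealInnerProductSpace ENNReal
open Pool.Agent.Helper16.Buoy (E cap IsEllipsoid Homothetic buoyancyBody)
open Pool.Agent.Helper73.HV (supp)
open Pool.Agent.Helper73.LR (CB vol GG Sol aff)

namespace Pool.Agent.Helper73.SY

variable {n : ℕ} {p q : E n}

theorem cb_nonempty {K : Set (E n)} (hK : CB K) : K.Nonempty := hK.int.mono interior_subset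

theorem iot_p (h : ON p q) : iot p q p = -p := by
  unfold iot; rw [h.pp, h.qp]; module

theorem supp_pos {K : Set (E n)} {δ lam : ℝ} {X : E n → E n} {t : E n → ℝ}
    (hD : Dat K δ lam X t) (h : ON p q) (hi : iot p q '' K = K) : 0 < supp K p := by
  have h1 := hD.tlo p h.p0
  have h2 := hD.tup p h.p0
  rw [← iot_p h, supp_even hi] at h1
  linarith

theorem DD_cont_eps {k : E n → ℝ} (hk : Continuous k) (v : E n) :
    Continuous (fun ε : ℝ => DD k p q ε v) := by
  unfold DD gg
  fun_prop

theorem DD_p {K : Set (E n)} (h : ON p q) {ε : ℝ} (hε : 0 ≤ ε) :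
    DD (supp K) p q ε p = supp K p - ε * supp K q := by
  unfold DD
  rw [rr_p h, gg_p h, gg_q h, Pool.Agent.Helper96.LR.supp_smul q hε]

theorem image_gg_iot {K : Set (E n)} (h : ON p q) (hi : iot p q '' K = K) (ε : ℝ) :
    iot p q '' (gg ε q '' K) = gg ε q '' K := by
  rw [image_image]
  have h1 : (fun x => iot p q (gg ε q x)) = fun x => gg ε q (iot p q x) := by
    funext x; exact iot_gg h ε x
  rw [h1, ← image_image (gg ε q) (iot p q) K, hi]

theorem half (IMG : S_img) (DAT : S_dat) (REG : S_reg) (STB : S_stab) (STA : S_start)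
    (LOW : S_lower) (TOP : S_topo) : S_half := by
  intro n K δ lam p q hn hK h hi
  obtain ⟨X, t, hD⟩ := DAT hn hK
  have hcont : Continuous (supp K) := supp_cont hK.cb.comp (cb_nonempty hK.cb)
  have hreg := REG hn hK
  have hhom : ∀ (s : ℝ) (x : E n), 0 ≤ s → supp K (s • x) = s * supp K x :=
    fun s x hs => Pool.Agent.Helper96.LR.supp_smul x hs
  have heven : ∀ x, supp K (iot p q x) = supp K x := supp_even hi
  have hp : 0 < supp K p := supp_pos hD h hi
  have hiqp : iot q p '' K = K := by
    have : (iot q p : E n → E n) = iot p q := by funext x; exact iot_symm x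
    rw [this]; exact hi
  have hq : 0 < supp K q := supp_pos hD h.symm hiqp
  have hSp : Sec p q p := by
    unfold Sec
    rw [h.qp, h.pp, abs_zero]
    exact one_pos
  set A : Set ℝ := {ε | 0 < ε ∧ ∀ v, Sec p q v → 0 ≤ DD (supp K) p q ε v} with hA
  have hbd : ∀ ε ∈ A, ε ≤ supp K p / supp K q := by
    rintro ε ⟨h0, h1⟩
    have h2 := h1 p hSp
    rw [DD_p h h0.le] at h2
    rw [le_div_iff₀ hq]
    linarith
  have hbdA : BddAbove A := ⟨_, hbd⟩
  obtain ⟨η, hη, hη2⟩ := STB h hcont hreg hhom heven (le_refl (0 : ℝ)) (STA hD h hi)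
  have hmem : η / 2 ∈ A := by
    refine ⟨by linarith, fun v hv => hη2 (η / 2) (by linarith) ?_ v hv⟩
    rw [sub_zero, abs_of_pos (by linarith)]
    linarith
  set s := sSup A with hs
  have hs0 : 0 < s := lt_of_lt_of_le (by linarith) (le_csSup hbdA hmem)
  have hsD : ∀ v, Sec p q v → 0 ≤ DD (supp K) p q s v := by
    intro v hv
    have hcl : s ∈ closure A := csSup_mem_closure ⟨_, hmem⟩ hbdA
    have hclosed : IsClosed {ε : ℝ | 0 ≤ DD (supp K) p q ε v} :=
      isClosed_le continuous_const (DD_cont_eps hcont v)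
    have hsub : A ⊆ {ε : ℝ | 0 ≤ DD (supp K) p q ε v} := fun ε hε => hε.2 v hv
    exact closure_minimal hsub hclosed hcl
  -- the image
  have hK' := IMG hK (ggL h.q1 hs0.ne')
  have himg : (ggL h.q1 hs0.ne' : E n → E n) '' K = gg s q '' K := rfl
  rw [himg] at hK'
  obtain ⟨X', t', hD'⟩ := DAT hn hK'
  have hi' := image_gg_iot h hi s
  have hsupp : ∀ v, supp (gg s q '' K) v - supp (gg s q '' K) (rr p q v) = DD (supp K) p q s v := by
    intro v
    rw [supp_gg, supp_gg]
    rfl
  have hle : ∀ v, Sec p q v → supp (gg s q '' K) (rr p q v) ≤ supp (gg s q '' K) v := by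
    intro v hv
    have := hsD v hv
    rw [← hsupp] at this
    linarith
  by_cases hdeg : ∃ u : E n, u ≠ 0 ∧ CSec p q u ∧
      ((¬ Cor p q u ∧ PP (gg s q '' K) t' p q u) ∨ (Cor p q u ∧ PC (gg s q '' K) t' p q u))
  · have h1 := TOP hD' h hi' hle hdeg
    rw [supp_gg, supp_gg, gg_p h, gg_q h, Pool.Agent.Helper96.LR.supp_smul q hs0.le] at h1
    have h2 : supp K p / supp K q = s := by
      rw [h1]; field_simp
    rw [h2]
    exact hsD
  · exfalso
    push Not at hdeg
    have hlow : ∀ u : E n, u ≠ 0 → CSec p q u → ∃ c : ℝ, 0 < c ∧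
        ∀ᶠ v in 𝓝 u, Sec p q v → c * ww p q v ≤ DD (supp K) p q s v := by
      intro u hu hcs
      obtain ⟨hd1, hd2⟩ := hdeg u hu hcs
      have hor : (¬ Cor p q u ∧ ¬ PP (gg s q '' K) t' p q u) ∨
          (Cor p q u ∧ ¬ PC (gg s q '' K) t' p q u) := by
        by_cases hc : Cor p q u
        · exact Or.inr ⟨hc, hd2 hc⟩
        · exact Or.inl ⟨hc, hd1 hc⟩
      obtain ⟨c, hc, hc2⟩ := LOW hD' h hi' hle u hu hcs hor
      refine ⟨c, hc, ?_⟩
      filter_upwards [hc2] with v hv hS
      have := hv hS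
      rw [hsupp] at this
      exact this
    obtain ⟨η', hη', hη2'⟩ := STB h hcont hreg hhom heven hs0.le hlow
    have hmem' : s + η' / 2 ∈ A := by
      refine ⟨by linarith, fun v hv => hη2' (s + η' / 2) (by linarith) ?_ v hv⟩
      rw [add_sub_cancel_left, abs_of_pos (by linarith)]
      linarith
    have := le_csSup hbdA hmem'
    rw [← hs] at this
    linarith

/-! ## The skew reflection -/

theorem rr_gg (h : ON p q) (ε : ℝ) (x : E n) : rr p q (gg ε p x) = gg ε q (rr p q x) := by
  conv_lhs => rw [rr, inner_sub_left, inner_p_gg (p := q) (q := p) h.qp, inner_q_gg h.p1]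
  conv_rhs => rw [gg, inner_q_rr h]
  unfold rr gg
  rw [inner_sub_left]
  module

theorem rr_gg' (h : ON p q) (ε : ℝ) (x : E n) : rr p q (gg ε q x) = gg ε p (rr p q x) := by
  have h1 := rr_gg h.symm ε x
  have e1 : rr q p (gg ε q x) = rr p q (gg ε q x) := rr_symm _
  have e2 : rr q p x = rr p q x := rr_symm _
  rw [e1, e2] at h1
  exact h1

theorem gg_comm (h : ON p q) (a b : ℝ) (x : E n) : gg a p (gg b q x) = gg b q (gg a p x) := by
  conv_lhs => rw [gg, inner_p_gg h.pq]
  conv_rhs => rw [gg, inner_p_gg (p := q) (q := p) h.qp]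
  unfold gg
  module

theorem supp_DD_zero {K : Set (E n)} {δ lam : ℝ} (HLF : S_half) (hn : 1 ≤ n) (hK : CS K δ lam)
    (h : ON p q) (hi : iot p q '' K = K) (hp : 0 < supp K p) (hq : 0 < supp K q) :
    ∀ v, supp K (gg (supp K p / supp K q) q (rr p q v)) = supp K (gg (supp K p / supp K q) q v) := by
  set ε := supp K p / supp K q with hε
  have hε0 : 0 < ε := div_pos hp hq
  have hεi : supp K q / supp K p = ε⁻¹ := by rw [hε, inv_div]
  have hiqp : iot q p '' K = K := by
    have : (iot q p : E n → E n) = iot p q := by funext x; exact iot_symm x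
    rw [this]; exact hi
  have h1 := HLF hn hK h hi
  have h2 := HLF hn hK h.symm hiqp
  rw [hεi] at h2
  have hSec : ∀ v, Sec p q v → supp K (gg ε q (rr p q v)) = supp K (gg ε q v) := by
    intro v hv
    have h3 := h1 v hv
    set w := gg ε p (gg ε q (rr p q v)) with hw
    have hwp : (inner ℝ p w : ℝ) = ε * inner ℝ q v := by
      rw [hw, inner_q_gg h.p1, inner_p_gg h.pq, inner_p_rr h]
    have hwq : (inner ℝ q w : ℝ) = ε * inner ℝ p v := by
      rw [hw, inner_p_gg (p := q) (q := p) h.qp, inner_q_gg h.q1, inner_q_rr h]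
    have hSw : Sec q p w := by
      unfold Sec
      rw [hwp, hwq, abs_mul, abs_of_pos hε0]
      exact mul_lt_mul_of_pos_left hv hε0
    have h4 := h2 w hSw
    unfold DD at h3 h4
    have e1 : gg ε⁻¹ p w = gg ε q (rr p q v) := by
      rw [hw, gg_gg h.p1, inv_mul_cancel₀ hε0.ne', gg_one]
    have e2 : gg ε⁻¹ p (rr q p w) = gg ε q v := by
      rw [rr_symm, hw, rr_gg h, rr_gg' h, rr_rr h, ← gg_comm h, gg_gg h.p1,
        inv_mul_cancel₀ hε0.ne', gg_one]
    rw [e1, e2] at h4
    linarith
  have hSec2 : ∀ v, |(inner ℝ q v : ℝ)| < |(inner ℝ p v : ℝ)| →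
      supp K (gg ε q (rr p q v)) = supp K (gg ε q v) := by
    intro v hv
    rcases le_or_gt 0 (inner ℝ p v : ℝ) with h0 | h0
    · apply hSec
      rw [abs_of_nonneg h0] at hv
      exact hv
    · have hv' : Sec p q (iot p q v) := by
        unfold Sec
        rw [inner_p_iot h, inner_q_iot h, abs_neg]
        rw [abs_of_neg h0] at hv
        exact hv
      have h3 := hSec _ hv'
      rw [← iot_rr h, ← iot_gg h, ← iot_gg h, supp_even hi, supp_even hi] at h3
      exact h3
  intro v
  rcases lt_trichotomy |(inner ℝ q v : ℝ)| |(inner ℝ p v : ℝ)| with h0 | h0 | h0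
  · exact hSec2 v h0
  · rcases abs_eq_abs.1 h0 with h5 | h5
    · have : rr p q v = v := by
        unfold rr
        rw [inner_sub_left, h5, sub_self, zero_smul, sub_zero]
      rw [this]
    · have : rr p q v = iot p q v := by
        unfold rr iot
        rw [inner_sub_left, h5]
        module
      rw [this, ← iot_gg h, supp_even hi]
  · have h6 := hSec2 (rr p q v) (by rw [inner_q_rr h, inner_p_rr h]; exact h0)
    rw [rr_rr h] at h6
    exact h6.symm

theorem quad_pos' {K : Set (E n)} (hK : CB K) (u : E n) (hu : u ≠ 0) :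
    0 < ∫ x in K, (inner ℝ u x) ^ 2 := by
  have hc : Continuous (fun x : E n => (inner ℝ u x : ℝ) ^ 2) := by fun_prop
  rw [setIntegral_pos_iff_support_of_nonneg_ae]
  · have hopen : IsOpen (Function.support (fun x : E n => (inner ℝ u x : ℝ) ^ 2) ∩ interior K) :=
      hc.isOpen_support.inter isOpen_interior
    have hne : (Function.support (fun x : E n => (inner ℝ u x : ℝ) ^ 2) ∩ interior K).Nonempty := by
      obtain ⟨x, hx⟩ := hK.int
      by_cases h0 : (inner ℝ u x : ℝ) = 0
      · have hcont : Continuous (fun s : ℝ => x + s • u) := by fun_prop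
        have hev : ∀ᶠ s in 𝓝 (0 : ℝ), x + s • u ∈ interior K := by
          apply hcont.continuousAt.eventually_mem
          simpa using isOpen_interior.mem_nhds hx
        have hev2 : ∀ᶠ s in 𝓝[>] (0 : ℝ), x + s • u ∈ interior K := hev.filter_mono nhdsWithin_le_nhds
        obtain ⟨s, hs, hs0⟩ := (hev2.and self_mem_nhdsWithin).exists
        refine ⟨x + s • u, ?_, hs⟩
        rw [Function.mem_support, inner_add_right, h0, inner_smul_right, zero_add,
          real_inner_self_eq_norm_sq]
        have hs0' : (0 : ℝ) < s := hs0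
        have : 0 < ‖u‖ := norm_pos_iff.2 hu
        positivity
      · exact ⟨x, by rw [Function.mem_support]; positivity, hx⟩
    exact lt_of_lt_of_le (hopen.measure_pos volume hne)
      (measure_mono (inter_subset_inter_right _ interior_subset))
  · exact Filter.Eventually.of_forall (fun x => sq_nonneg _)
  · exact hc.continuousOn.integrableOn_compact hK.comp

theorem abs_det_rr (h : ON p q) : |((rrL h).toContinuousLinearEquiv : E n →L[ℝ] E n).det| = 1 := by
  set T : E n →ₗ[ℝ] E n := (((rrL h).toContinuousLinearEquiv : E n →L[ℝ] E n) : E n →ₗ[ℝ] E n)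
    with hT
  have h0 : ((rrL h).toContinuousLinearEquiv : E n →L[ℝ] E n).det = LinearMap.det T := rfl
  have h1 : T ∘ₗ T = LinearMap.id := by
    ext1 x
    exact rr_rr h x
  have h2 : LinearMap.det T * LinearMap.det T = 1 := by
    rw [← LinearMap.det_comp, h1, LinearMap.det_id]
  rw [h0]
  rcases mul_self_eq_one_iff.1 h2 with h3 | h3
  · rw [h3, abs_one]
  · rw [h3, abs_neg, abs_one]

theorem refl (IMG : S_img) (DAT : S_dat) (HLF : S_half) : S_refl := by
  intro n K δ lam p q hn hK h hi
  obtain ⟨X, t, hD⟩ := DAT hn hK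
  have hp : 0 < supp K p := supp_pos hD h hi
  have hiqp : iot q p '' K = K := by
    have : (iot q p : E n → E n) = iot p q := by funext x; exact iot_symm x
    rw [this]; exact hi
  have hq : 0 < supp K q := supp_pos hD h.symm hiqp
  have hz := supp_DD_zero HLF hn hK h hi hp hq
  set ε := supp K p / supp K q with hε
  have hε0 : 0 < ε := div_pos hp hq
  have hK' := IMG hK (ggL h.q1 hε0.ne')
  have himg : (ggL h.q1 hε0.ne' : E n → E n) '' K = gg ε q '' K := rfl
  rw [himg] at hK'
  have hK'' := IMG hK' (rrL h).toContinuousLinearEquiv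
  have himg2 : ((rrL h).toContinuousLinearEquiv : E n → E n) '' (gg ε q '' K) =
    rr p q '' (gg ε q '' K) := rfl
  rw [himg2] at hK''
  have hsym : rr p q '' (gg ε q '' K) = gg ε q '' K := by
    apply eq_of_supp hK''.cb hK'.cb
    intro u
    rw [supp_rr, supp_gg, supp_gg]
    exact hz u
  refine ⟨⟨ε, hε0, hsym⟩, fun hmom => ?_⟩
  have hc : ∀ w : E n, ∫ y in gg ε q '' K, (inner ℝ w y : ℝ) ^ 2 =
      |((ggL h.q1 hε0.ne' : E n ≃L[ℝ] E n) : E n →L[ℝ] E n).det| *
        ∫ x in K, (inner ℝ w (gg ε q x) : ℝ) ^ 2 := by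
    intro w
    rw [← himg]
    exact Pool.Agent.Helper35.HV.integral_image (ggL h.q1 hε0.ne') hK.cb.comp _
  have hrr : ∫ y in gg ε q '' K, (inner ℝ p y : ℝ) ^ 2 =
      ∫ y in gg ε q '' K, (inner ℝ q y : ℝ) ^ 2 := by
    conv_lhs => rw [← hsym, ← himg2]
    rw [Pool.Agent.Helper35.HV.integral_image (rrL h).toContinuousLinearEquiv hK'.cb.comp,
      abs_det_rr h, one_mul]
    apply integral_congr_ae
    refine Filter.Eventually.of_forall (fun x => ?_)
    change (inner ℝ p (rr p q x) : ℝ) ^ 2 = _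
    rw [inner_p_rr h]
  have hdet := Pool.Agent.Helper35.HV.abs_det_pos (ggL h.q1 hε0.ne')
  rw [hc p, hc q] at hrr
  have h5 := mul_left_cancel₀ hdet.ne' hrr
  have h6 : ∫ x in K, (inner ℝ p (gg ε q x) : ℝ) ^ 2 = ∫ x in K, (inner ℝ p x : ℝ) ^ 2 := by
    simp only [inner_p_gg h.pq]
  have h7 : ∫ x in K, (inner ℝ q (gg ε q x) : ℝ) ^ 2 = ε ^ 2 * ∫ x in K, (inner ℝ q x : ℝ) ^ 2 := by
    simp only [inner_q_gg h.q1, mul_pow]
    rw [integral_const_mul]
  rw [h6, h7, hmom] at h5
  have h8 := quad_pos' hK.cb q h.symm.p0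
  have h9 : ε ^ 2 = 1 := by
    have : (ε ^ 2 - 1) * ∫ x in K, (inner ℝ q x : ℝ) ^ 2 = 0 := by linarith
    rcases mul_eq_zero.1 this with h10 | h10
    · linarith
    · exact absurd h10 h8.ne'
  have h11 : ε = 1 := (pow_eq_one_iff_of_nonneg hε0.le two_ne_zero).1 h9
  have h13 : gg ε q '' K = K := by
    rw [h11]
    have : (gg 1 q : E n → E n) = id := by funext x; exact gg_one x
    rw [this, image_id]
  rw [h13] at hsym
  exact hsym

/-! ## All reflections of a plane -/

theorem rot_ON {a b : E n} (h : ON a b) {c s : ℝ} (hcs : c ^ 2 + s ^ 2 = 1) :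
    ON (c • a + s • b) (-s • a + c • b) where
  p1 := by
    have h1 : ‖c • a + s • b‖ ^ 2 = 1 := by
      rw [← real_inner_self_eq_norm_sq]
      simp only [inner_add_left, inner_add_right, inner_smul_left, inner_smul_right, h.pp, h.qq,
        h.pq, h.qp, conj_trivial]
      linarith
    exact (pow_eq_one_iff_of_nonneg (norm_nonneg _) two_ne_zero).1 h1
  q1 := by
    have h1 : ‖-s • a + c • b‖ ^ 2 = 1 := by
      rw [← real_inner_self_eq_norm_sq]
      simp only [inner_add_left, inner_add_right, inner_smul_left, inner_smul_right, h.pp, h.qq,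
        h.pq, h.qp, conj_trivial]
      linarith
    exact (pow_eq_one_iff_of_nonneg (norm_nonneg _) two_ne_zero).1 h1
  pq := by
    simp only [inner_add_left, inner_add_right, inner_smul_left, inner_smul_right, h.pp, h.qq,
        h.pq, h.qp, conj_trivial]
    ring

theorem rot_iot {a b : E n} {c s : ℝ} (hcs : c ^ 2 + s ^ 2 = 1) (x : E n) :
    iot (c • a + s • b) (-s • a + c • b) x = iot a b x := by
  unfold iot
  simp only [inner_add_left, inner_smul_left, conj_trivial]
  have h1 : x - (2 * (c * (inner ℝ a x : ℝ) + s * inner ℝ b x)) • (c • a + s • b) -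
      (2 * (-s * (inner ℝ a x : ℝ) + c * inner ℝ b x)) • (-s • a + c • b) =
      x - (2 * ((c ^ 2 + s ^ 2) * (inner ℝ a x : ℝ))) • a -
        (2 * ((c ^ 2 + s ^ 2) * (inner ℝ b x : ℝ))) • b := by module
  rw [h1, hcs, one_mul, one_mul]

theorem plane (REF : S_refl) : S_plane := by
  intro n K δ lam a b hn hK h hi hmom hmix α β hαβ
  have h2 : Real.sqrt 2 ^ 2 = 2 := Real.sq_sqrt (by norm_num)
  have h20 : 0 < Real.sqrt 2 := Real.sqrt_pos.2 (by norm_num)
  set c := (α - β) / Real.sqrt 2 with hc
  set s := (α + β) / Real.sqrt 2 with hs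
  have hcs : c ^ 2 + s ^ 2 = 1 := by
    rw [hc, hs, div_pow, div_pow, h2]
    linarith
  have hON := rot_ON h hcs
  have hiot : iot (c • a + s • b) (-s • a + c • b) '' K = K := by
    have : (iot (c • a + s • b) (-s • a + c • b) : E n → E n) = iot a b := by
      funext x; exact rot_iot hcs x
    rw [this]; exact hi
  have hR := (REF hn hK hON hiot).2 ?_
  · have : (rr (c • a + s • b) (-s • a + c • b) : E n → E n) = sg (α • a + β • b) := by
      funext x
      unfold rr sg
      have e1 : c • a + s • b - (-s • a + c • b) = Real.sqrt 2 • (α • a + β • b) := by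
        have e2 : c + s = Real.sqrt 2 * α := by
          rw [hc, hs]; field_simp; rw [h2]; ring
        have e3 : s - c = Real.sqrt 2 * β := by
          rw [hc, hs]; field_simp; rw [h2]; ring
        rw [smul_add, smul_smul, smul_smul, ← e2, ← e3]
        module
      rw [e1, inner_smul_left, conj_trivial, smul_smul]
      congr 2
      have : Real.sqrt 2 * (inner ℝ (α • a + β • b) x : ℝ) * Real.sqrt 2 =
        Real.sqrt 2 ^ 2 * inner ℝ (α • a + β • b) x := by ring
      rw [this, h2]
    rw [← this]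
    exact hR
  · have i1 : IntegrableOn (fun x : E n => (inner ℝ a x : ℝ) ^ 2) K :=
      (by fun_prop : Continuous (fun x : E n => (inner ℝ a x : ℝ) ^ 2)).continuousOn.integrableOn_compact
        hK.cb.comp
    have i2 : IntegrableOn (fun x : E n => (inner ℝ b x : ℝ) ^ 2) K :=
      (by fun_prop : Continuous (fun x : E n => (inner ℝ b x : ℝ) ^ 2)).continuousOn.integrableOn_compact
        hK.cb.comp
    have i3 : IntegrableOn (fun x : E n => (inner ℝ a x : ℝ) * inner ℝ b x) K :=
      (by fun_prop : Continuous (fun x : E n => (inner ℝ a x : ℝ) * inner ℝ b x)).continuousOn.integrableOn_compact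
        hK.cb.comp
    have key : ∀ c s : ℝ, ∫ x in K, (inner ℝ (c • a + s • b) x : ℝ) ^ 2 =
        (c ^ 2 + s ^ 2) * ∫ x in K, (inner ℝ a x : ℝ) ^ 2 := by
      intro c s
      have e1 : ∀ x : E n, (inner ℝ (c • a + s • b) x : ℝ) ^ 2 = c ^ 2 * (inner ℝ a x : ℝ) ^ 2 +
          s ^ 2 * (inner ℝ b x : ℝ) ^ 2 + 2 * c * s * ((inner ℝ a x : ℝ) * inner ℝ b x) := by
        intro x
        simp only [inner_add_left, inner_smul_left, conj_trivial]
        ring
      simp only [e1]
      rw [integral_add, integral_add, integral_const_mul, integral_const_mul, integral_const_mul,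
        hmix, ← hmom]
      · ring
      · exact i1.const_mul _
      · exact i2.const_mul _
      · exact (i1.const_mul _).add (i2.const_mul _)
      · exact i3.const_mul _
    rw [key, key]
    ring

end Pool.Agent.Helper73.SY
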