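import Pool.Agent.Helper73.SY.Defs

/-!
# Statements of the modules (project MP_a2630c_SY)
-/

open MeasureTheory Set Metric Real Filter Topology
open scoped RealInnerProductSpace ENNReal
open Pool.Agent.Helper16.Buoy (E cap IsEllipsoid Homothetic buoyancyBody)
open Pool.Agent.Helper73.HV (supp)
open Pool.Agent.Helper73.LR (CB vol GG Sol aff)

namespace Pool.Agent.Helper73.SY

/-! ## Generalities on centred solutions -/

/-- (CEN) Every solution has a centred translate; the translation respects symmetries. -/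
def S_center : Prop := ∀ {n : ℕ} {K : Set (E n)} {d : ℝ}, 1 ≤ n → CB K → 0 < d → d < vol K →
    Sol K d → ∃ (c : E n) (lam : ℝ), CS ((fun x => x + c) '' K) d lam ∧
      ∀ a b : E n, ON a b → iot a b '' K = K → iot a b c = c

/-- (IMG) Linear images of centred solutions. -/
def S_img : Prop := ∀ {n : ℕ} {K : Set (E n)} {δ lam : ℝ}, CS K δ lam → ∀ T : E n ≃L[ℝ] E n,
    CS (T '' K) (|(T : E n →L[ℝ] E n).det| * δ) (|(T : E n →L[ℝ] E n).det| * lam)

/-- (DAT) Support points and levels. -/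
def S_dat : Prop := ∀ {n : ℕ} {K : Set (E n)} {δ lam : ℝ}, 1 ≤ n → CS K δ lam →
    ∃ (X : E n → E n) (t : E n → ℝ), Dat K δ lam X t

/-- (REG) The support function of a centred solution is `C²` outside the origin. -/
def S_reg : Prop := ∀ {n : ℕ} {K : Set (E n)} {δ lam : ℝ}, 1 ≤ n → CS K δ lam →
    ContDiffOn ℝ 2 (supp K) {0}ᶜ

/-! ## The sliding method in a plane -/

/-- (STB) Stability of the sign of `DD` in the sector. -/
def S_stab : Prop := ∀ {n : ℕ} {k : E n → ℝ} {p q : E n}, ON p q → Continuous k →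
    ContDiffOn ℝ 2 k {0}ᶜ → (∀ (s : ℝ) (x : E n), 0 ≤ s → k (s • x) = s * k x) →
    (∀ x, k (iot p q x) = k x) → ∀ {ε1 : ℝ}, 0 ≤ ε1 →
    (∀ u : E n, u ≠ 0 → CSec p q u → ∃ c : ℝ, 0 < c ∧
      ∀ᶠ v in 𝓝 u, Sec p q v → c * ww p q v ≤ DD k p q ε1 v) →
    ∃ η : ℝ, 0 < η ∧ ∀ ε : ℝ, 0 ≤ ε → |ε - ε1| < η → ∀ v, Sec p q v → 0 ≤ DD k p q ε v

/-- (STA) Positivity at `ε = 0`. -/
def S_start : Prop := ∀ {n : ℕ} {K : Set (E n)} {δ lam : ℝ} {X : E n → E n} {t : E n → ℝ}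
    {p q : E n}, Dat K δ lam X t → ON p q → iot p q '' K = K →
    ∀ u : E n, u ≠ 0 → CSec p q u → ∃ c : ℝ, 0 < c ∧
      ∀ᶠ v in 𝓝 u, Sec p q v → c * ww p q v ≤ DD (supp K) p q 0 v

/-- (LOW) Strict positivity where `PP` (or `PC`) fails. -/
def S_lower : Prop := ∀ {n : ℕ} {K : Set (E n)} {δ lam : ℝ} {X : E n → E n} {t : E n → ℝ}
    {p q : E n}, Dat K δ lam X t → ON p q → iot p q '' K = K →
    (∀ v, Sec p q v → supp K (rr p q v) ≤ supp K v) →
    ∀ u : E n, u ≠ 0 → CSec p q u → ((¬ Cor p q u ∧ ¬ PP K t p q u) ∨ (Cor p q u ∧ ¬ PC K t p q u)) →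
    ∃ c : ℝ, 0 < c ∧ ∀ᶠ v in 𝓝 u, Sec p q v → c * ww p q v ≤ supp K v - supp K (rr p q v)

/-- (TOP) A degenerate direction forces equality on the plane. -/
def S_topo : Prop := ∀ {n : ℕ} {K : Set (E n)} {δ lam : ℝ} {X : E n → E n} {t : E n → ℝ}
    {p q : E n}, Dat K δ lam X t → ON p q → iot p q '' K = K →
    (∀ v, Sec p q v → supp K (rr p q v) ≤ supp K v) →
    (∃ u : E n, u ≠ 0 ∧ CSec p q u ∧ ((¬ Cor p q u ∧ PP K t p q u) ∨ (Cor p q u ∧ PC K t p q u))) →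
    supp K p = supp K q

/-- (HLF) The sliding argument. -/
def S_half : Prop := ∀ {n : ℕ} {K : Set (E n)} {δ lam : ℝ} {p q : E n}, 1 ≤ n → CS K δ lam →
    ON p q → iot p q '' K = K → ∀ v, Sec p q v → 0 ≤ DD (supp K) p q (supp K p / supp K q) v

/-- (REF) A skew reflection is a symmetry; it is the orthogonal one if the inertia is balanced. -/
def S_refl : Prop := ∀ {n : ℕ} {K : Set (E n)} {δ lam : ℝ} {p q : E n}, 1 ≤ n → CS K δ lam →
    ON p q → iot p q '' K = K →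
    (∃ ε : ℝ, 0 < ε ∧ rr p q '' (gg ε q '' K) = gg ε q '' K) ∧
      ((∫ x in K, (inner ℝ p x) ^ 2 = ∫ x in K, (inner ℝ q x) ^ 2) → rr p q '' K = K)

/-- (PLN) All reflections of an isotropic plane. -/
def S_plane : Prop := ∀ {n : ℕ} {K : Set (E n)} {δ lam : ℝ} {a b : E n}, 1 ≤ n → CS K δ lam →
    ON a b → iot a b '' K = K →
    (∫ x in K, (inner ℝ a x) ^ 2 = ∫ x in K, (inner ℝ b x) ^ 2) →
    (∫ x in K, (inner ℝ a x : ℝ) * inner ℝ b x = 0) →
    ∀ α β : ℝ, α ^ 2 + β ^ 2 = 1 → sg (α • a + β • b) '' K = K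

/-- (CMB) From the pairwise sign changes of the last `n - 1` coordinates to a body of
revolution. -/
def S_combine : Prop := ∀ {n : ℕ} {K : Set (E (n + 1))} {δ lam : ℝ}, 2 ≤ n → CS K δ lam →
    (∀ i j : Fin n, i ≠ j → iot (bb (n + 1) i.succ) (bb (n + 1) j.succ) '' K = K) →
    ∃ T : E (n + 1) ≃L[ℝ] E (n + 1), RevSym (T '' K) (bb (n + 1) 0)

/-! ## Bodies of revolution -/

/-- (PRO) The profile. -/
def S_prof : Prop := ∀ {n : ℕ} {K : Set (E n)} {δ lam : ℝ} {X : E n → E n} {t : E n → ℝ}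
    {e f : E n}, 2 ≤ n → Dat K δ lam X t → ContDiffOn ℝ 2 (supp K) {0}ᶜ → ON e f →
    RevSym K e → Prof K X e f

/-- (RID) The integral identity. -/
def S_rid : Prop := ∀ {n : ℕ} {K : Set (E n)} {δ lam : ℝ} {X : E n → E n} {t : E n → ℝ}
    {e f : E n}, 2 ≤ n → Dat K δ lam X t → RevSym K e → Prof K X e f → ∀ {Ω : ℝ → ℝ},
    (∀ κ, Ω (zz X e f κ) = -2 * κ * ss X e f κ) → ∀ κ : ℝ,
    IntegrableOn (fun x => Ω (inner ℝ e x)) (cap K (κ • e + f) (t (κ • e + f))) ∧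
    ∫ x in cap K (κ • e + f) (t (κ • e + f)), Ω (inner ℝ e x) = lam * Ω (zz X e f κ)

/-- (RLN) The maximum principle: `Ω` is affine. -/
def S_rlin : Prop := ∀ {n : ℕ} {K : Set (E n)} {δ lam : ℝ} {X : E n → E n} {t : E n → ℝ}
    {e f : E n}, 2 ≤ n → Dat K δ lam X t → RevSym K e → Prof K X e f →
    (∀ {Ω : ℝ → ℝ}, (∀ κ, Ω (zz X e f κ) = -2 * κ * ss X e f κ) → ∀ κ : ℝ,
      IntegrableOn (fun x => Ω (inner ℝ e x)) (cap K (κ • e + f) (t (κ • e + f))) ∧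
      ∫ x in cap K (κ • e + f) (t (κ • e + f)), Ω (inner ℝ e x) = lam * Ω (zz X e f κ)) →
    ∃ M B : ℝ, ∀ κ, -2 * κ * ss X e f κ = M * zz X e f κ + B

/-- (REN) Conclusion for bodies of revolution. -/
def S_rend : Prop := ∀ {n : ℕ} {K : Set (E n)} {X : E n → E n} {e f : E n}, CB K → Prof K X e f →
    (∃ M B : ℝ, ∀ κ, -2 * κ * ss X e f κ = M * zz X e f κ + B) → IsEllipsoid K

end Pool.Agent.Helper73.SY
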